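import Pool.Agent.helper80.LL.All

/-!
# How singular can a quantum limit on a closed hyperbolic surface be?

`M = Γ \ ℍ` is an arbitrary closed hyperbolic surface and `φ_0, φ_1, ...` an arbitrary orthonormal sequence of eigenfunctions of its
Laplacian with eigenvalues `1/4 + s_i²`, `s_i → ∞` (by the law of Weyl a window `[r, r + 1]` contains about `vol(M) r / (2 π)` members
of an orthonormal basis). Let `0 ≤ b < 1`. One can discard at most `r^b / 2` members of each window `[r, r + 1]` (none if `b = 0`) such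
that every weak limit `ν` of the measures `|φ_i|²` of the others gives mass at most `(1 - b) / (3 - d)` to every Borel set of area zero
and of Hausdorff dimension at most `d`, `1 ≤ d ≤ 2`. In particular (`d = 2`) its absolutely continuous part has mass at least `b`.

Proof. The limits of averages of `|φ|²` over `r^(b - o(1))` orthonormal eigenfunctions are projections of measures `μ` on
`Γ \ SL(2, ℝ)`, invariant under the geodesic flow, of entropy at least `(1 + b) / 2` (EntropyOfAverages). The local entropy of `μ` is at most `1`,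
and the part of `μ` where it is larger than `(d - 1) / 2` does not charge sets of dimension `d` (energy of pairs of crossing geodesics,
after Ledrappier and Lindenstrauss). An eigenfunction which is not exceptional is close to `r^(b - o(1))` others of its window.
-/

set_option autoImplicit false

open scoped MatrixGroups ContDiff Topology UpperHalfPlane
open UpperHalfPlane MeasureTheory Filter Set

namespace Pool.Agent.Results.MP_07c750_an.AbsolutelyContinuousPart

open Pool.Agent

theorem result (Γ : Subgroup SL(2, ℝ)) (F : Set ℍ) (hΓ : QU.SurfaceGroup Γ)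
    (hF : IsFundamentalDomain Γ F (volume : Measure ℍ))
    (s : ℕ → ℝ) (φ : ℕ → ℍ → ℂ) (hs : Tendsto s atTop atTop)
    (hφ : ∀ i, RS.Eig Γ (s i) (φ i))
    (hO : ∀ i j, ∫ z in F, φ i z * (starRingEnd ℂ) (φ j z) = if i = j then 1 else 0)
    (b : ℝ) (hb : 0 ≤ b) (hb1 : b < 1) :
    ∃ Ex : Set ℕ,
      (∀ r : ℝ, 1 ≤ r → {i | i ∈ Ex ∧ r ≤ s i ∧ s i ≤ r + 1}.Finite ∧
        2 * ({i | i ∈ Ex ∧ r ≤ s i ∧ s i ≤ r + 1}.ncard : ℝ) ≤ r ^ b) ∧
      ∀ q : ℕ → ℕ, Tendsto q atTop atTop → (∀ k, q k ∉ Ex) →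
        ∀ ν : Measure (EN.MG Γ), IsFiniteMeasure ν →
          (∀ V : EN.MG Γ → ℝ, Continuous V →
            Tendsto (fun k => ∫ z in F, V (EN.mkM Γ z) * ‖φ (q k) z‖ ^ 2) atTop
              (𝓝 (∫ x, V x ∂ν))) →
          ∀ (E : Set (EN.MG Γ)) (d : ℝ), MeasurableSet E →
            volume {z : ℍ | EN.mkM Γ z ∈ E} = 0 → 1 ≤ d → d ≤ 2 →
            dimH {z : ℍ | EN.mkM Γ z ∈ E} ≤ ENNReal.ofReal d →
              ν.real E ≤ (1 - b) / (3 - d) := by
  refine LL.IND EN.A_XTM Γ F hΓ b hb hb1.le _ ?_ s φ hs hφ hO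
  intro r N s φ ν hr hφ hN hβ hν hlim E d hE h0 hd1 hd2 hd
  obtain ⟨μ, hμ, hinv, hmap, hKS⟩ := EN.A_FNA Γ F r N s φ b ν hΓ hF hr hφ hN hβ hν hlim
  have h := LL.dim_bound LL.A_FIN hΓ hμ hinv hKS hE h0 hd1 hd2 hd
  have hpr : Measurable (EN.pr Γ) := (EN.A_XFL Γ).2.1.measurable
  rwa [← hmap, map_measureReal_apply hpr hE]

end Pool.Agent.Results.MP_07c750_an.AbsolutelyContinuousPart
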