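import Pool.Agent.helper62.EN.All

/-!
# The entropy of averages of eigenfunctions on a closed hyperbolic surface

`M = Γ \ ℍ` is an arbitrary closed hyperbolic surface; nothing is assumed of the eigenfunctions of its Laplacian except that they
are orthonormal. By the law of Weyl there are about `vol(M) r / (2 π)` of them with spectral parameter in `[r, r + 1]`.

Let `ν` be a weak limit of the averages of `|φ|²` over `N_k ≥ r_k^(β - o(1))` orthonormal eigenfunctions with spectral parameters
in `[r_k, r_k + 1]`, `r_k → ∞`. Then `ν` is the projection of a probability measure on `Γ \ SL(2, ℝ)` which is invariant under the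
geodesic flow and has Kolmogorov-Sinai entropy at least `(1 + β) / 2`. For `β = 0` this is the theorem of Anantharaman and Nonnenmacher; for
`β = 1` it is the theorem of Schnirelman and Zelditch.

Proof. The pairings of the eigenfunctions with the translates of a horocyclic packet give a probability measure on `Γ \ SL(2, ℝ)`
(packet measure). A three lines argument for the trace of a product of truncated packet operators gives an upper bound of its relative entropy with
respect to the volume, for every function at the scale of the Ehrenfest time `log r`; cylinder sets of length `n` have volume `O(e^(-n))`, so the packet measure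
has entropy at least `(1 + β) / 2 - o(1)` per unit of time up to the time `log r`. Time averages converge to invariant measures; Misiurewicz's inequality.
-/

set_option autoImplicit false

open scoped MatrixGroups ContDiff Topology UpperHalfPlane
open UpperHalfPlane MeasureTheory Filter Set

namespace Pool.Agent.Results.MP_07c750_an.EntropyOfAverages

open Pool.Agent

theorem result (Γ : Subgroup SL(2, ℝ)) (F : Set ℍ) (hΓ : QU.SurfaceGroup Γ)
    (hF : IsFundamentalDomain Γ F (volume : Measure ℍ))
    (β : ℝ) (r : ℕ → ℝ) (N : ℕ → ℕ) (s : ∀ k, Fin (N k) → ℝ) (φ : ∀ k, Fin (N k) → ℍ → ℂ)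
    (hr : Tendsto r atTop atTop)
    (hφ : ∀ k, RS.EFam Γ F (r k) (N k) (s k) (φ k))
    (hN : ∀ k, 1 ≤ N k) (hβ : ∀ b < β, ∀ᶠ k in atTop, r k ^ b ≤ N k)
    (ν : Measure (EN.MG Γ)) (hν : IsFiniteMeasure ν)
    (hlim : ∀ V : EN.MG Γ → ℝ, Continuous V →
      Tendsto (fun k => (∑ j, ∫ z in F, V (EN.mkM Γ z) * ‖φ k j z‖ ^ 2) / (N k : ℝ)) atTop
        (𝓝 (∫ x, V x ∂ν))) :
    ∃ μ : Measure (EN.XG Γ), IsProbabilityMeasure μ ∧ (∀ t, μ.map (EN.fl Γ t) = μ) ∧
      μ.map (EN.pr Γ) = ν ∧ (((1 + β) / 2 : ℝ) : EReal) ≤ EN.KS μ (EN.fl Γ 1) :=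
  EN.A_FNA Γ F r N s φ β ν hΓ hF hr hφ hN hβ hν hlim

end Pool.Agent.Results.MP_07c750_an.EntropyOfAverages
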