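import Pool.Agent.helper93.CR.All

/-!
# The entropies of a quantum limit on a closed hyperbolic surface satisfy a reflection inequality

`M = Γ \ ℍ` is an arbitrary closed hyperbolic surface and `ν` an arbitrary weak limit of `|φ_k|² dz`, where the `φ_k` are `L²`-normalised eigenfunctions of the Laplacian with
eigenvalues `1/4 + s_k²`, `s_k → ∞`.

There is a probability measure `μ` on `X = Γ \ SL(2, ℝ)`, invariant under the geodesic flow and with projection `ν`, such that the distribution function `F(a) = μ {h ≤ a}` of its local entropy `h`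
(of Brin and Katok; almost everywhere the entropy of the ergodic component) satisfies `F(a) + F(1 - a) ≤ 1` for every `0 < a < 1`: the mass of entropy `≤ a` is at most the mass of entropy `> 1 - a`.
For `a = 1/2`: at least half of the mass has entropy `> 1/2`. Integration over `a` gives the bound `∫ h dμ ≥ 1/2` of Anantharaman and Nonnenmacher.

Proof. `μ` is the limit of the squares of the coefficients of horocyclic wave packets. Let `a ≤ 1/2`. By the theorem of Shannon and McMillan the part of `μ` on `{h ≤ a}` is covered by `e^((a + κ) n)` Bowen boxes of length `n`, the part on `{h ≤ 1 - a}` by `e^((1 - a + κ) n)` of them.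
Let `B` be the set of the points whose future is in the first boxes at the time `log r - n - c`, and `D` the set of the points whose past of length `n` is in the second ones. The part of `φ_k` synthesised from the packets in `B` has mass `o(1)` on `D`: on pieces of unstable leaves the operator from `D` to `B`
is an exponential sum with `e^((1 - a + κ) n)` frequencies restricted to a set of `e^((a + κ) n)` intervals of length `e^(-n)`, which is porous at most scales and therefore has small additive energy (Balog, Szemeredi and Gowers; entropy of iterated sums, after Kaimanovich and Vershik; a Fourier estimate at one scale).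

Definitions (`Pool.Agent.helper93.ER.Spec`): `Bow Γ δ n x`, the set of the `y = Γ g h`, `x = Γ g`, such that the displacement `(aM t)⁻¹ h (aM t)` of the orbits at time `t` is within `δ` of the identity for `|t| ≤ n`;
`Low Γ μ a`, the set of the `x` such that for all `δ, ε > 0` there are infinitely many `n` with `μ (Bow Γ δ n x) ≥ e^(-(a + ε) 2n)`.
-/

set_option autoImplicit false

open scoped MatrixGroups ContDiff Topology UpperHalfPlane
open UpperHalfPlane MeasureTheory Filter Set

namespace Pool.Agent.Results.MP_07c750_an.EntropyReflection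

open Pool.Agent

theorem result (Γ : Subgroup SL(2, ℝ)) (F : Set ℍ) (hΓ : QU.SurfaceGroup Γ)
    (hF : IsFundamentalDomain Γ F (volume : Measure ℍ))
    (s : ℕ → ℝ) (φ : ℕ → ℍ → ℂ) (hs : Tendsto s atTop atTop)
    (hφ : ∀ k, RS.Eig Γ (s k) (φ k)) (h1 : ∀ k, ∫ z in F, ‖φ k z‖ ^ 2 = 1)
    (ν : Measure (EN.MG Γ)) (hν : IsFiniteMeasure ν)
    (hlim : ∀ V : EN.MG Γ → ℝ, Continuous V →
      Tendsto (fun k => ∫ z in F, V (EN.mkM Γ z) * ‖φ k z‖ ^ 2) atTop (𝓝 (∫ x, V x ∂ν))) :
    ∃ μ : Measure (EN.XG Γ), IsProbabilityMeasure μ ∧ (∀ t, μ.map (EN.fl Γ t) = μ) ∧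
      μ.map (EN.pr Γ) = ν ∧ (∀ a : ℝ, MeasurableSet (ER.Low Γ μ a)) ∧
      ∀ a : ℝ, 0 < a → a < 1 → μ (ER.Low Γ μ a) + μ (ER.Low Γ μ (1 - a)) ≤ 1 := by
  obtain ⟨μ, h2, h3, h4, h5, -, h6⟩ := CR.closed Γ F s φ ν hΓ hF hs hφ h1 hν hlim
  exact ⟨μ, h2, h3, h4, h5, h6⟩

end Pool.Agent.Results.MP_07c750_an.EntropyReflection
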