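import Pool.Agent.helper93.LQ.Fin
import Pool.Agent.helper93.LQ.AllL
import Pool.Agent.helper93.T1.AllT
import Pool.Agent.helper25.HH.AllH2

/-!
# The uniform part of every quantum limit has at least the mass of its part of entropy at most one third

`M = Γ \ ℍ` is an arbitrary closed hyperbolic surface and `ν` an arbitrary weak limit of `|φ_k|² dz`, where the `φ_k` are `L²`-normalised eigenfunctions of the Laplacian with
eigenvalues `1/4 + s_k²`, `s_k → ∞`.

There is a probability measure `μ` on `X = Γ \ SL(2, ℝ)`, invariant under the geodesic flow and with projection `ν`, such that the distribution function `F(a) = μ {h ≤ a}` of its lower local entropy `h`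
(of Brin and Katok) satisfies
(1) `F(h) + F(a) ≤ 1` for all `0 ≤ a < 1/2`, `0 ≤ h < 1` with `3a + h < 2` (the uncertainty principle alone gives this for `a + h < 1`); for `a ≤ 1/3` it holds for all `h < 1`: the part of entropy
`≥ 1` is at least as heavy as the part of entropy `≤ 1/3`;
(2) `ν(A) ≥ F(1/3) area(A)/area(M)` for every Borel set `A` of `M`: the part of entropy `≤ 1/3` forces a uniform part at least as heavy.
(Before: (1) for `a + h < 1` and slightly more, (2) for the entropy `0`.)

Proof. `μ` is the limit of the squares of the coefficients of horocyclic wave packets. Points whose future is in few Bowen boxes and points whose past is in few Bowen boxes are compared by exponential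
sums on pieces of unstable horocycles. The frequencies are the endpoints of the occupied pieces of a stable horocycle; two unstable horocycles are compared by a projective map `u ↦ u/(1 - X u)`, whose
second derivative gives different dilations to different parts of the horocycle.
(1), (2): let `U` be the set of the unstable coordinates of the points of entropy `h` in a box, `N` the inverse of the scale. By a fourth moment estimate over slopes and frequencies (the difference of the
phases of two slopes has a linear factor) the integrals of `e(t u/(1 - X u))` over `U` are small, summed over any `a`-regular set of frequencies `t`, for all but about `N^(3a + 2h - 2)` slopes `X`. The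
points whose leaves have exceptional slopes have entropy at most `3a + 2h - 2`, which is less than `h` if `3a + h < 2`: this is iterated. For (2) the points with exceptional ergodic averages are used, by
large deviations on horocycles.

Definitions (`Pool.Agent.helper93.ER.Spec`): `Bow Γ δ n x`, the set of the `y = Γ g h`, `x = Γ g`, such that the displacement `(aM t)⁻¹ h (aM t)` of the
orbits at time `t` is within `δ` of the identity for `|t| ≤ n`; `Low Γ μ a`, the set of the `x` such that for all `δ, ε > 0` there are infinitely many `n` with `μ (Bow Γ δ n x) ≥ e^(-(a + ε) 2n)`, so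
`Low Γ μ a = {h ≤ a}`.
-/

set_option autoImplicit false

open scoped MatrixGroups ContDiff Topology UpperHalfPlane
open UpperHalfPlane MeasureTheory Filter Set

namespace Pool.Agent.Results.MP_07c750_an.LiouvillePart

open Pool.Agent

theorem result (Γ : Subgroup SL(2, ℝ)) (F : Set ℍ) (hΓ : QU.SurfaceGroup Γ)
    (hF : IsFundamentalDomain Γ F (volume : Measure ℍ))
    (s : ℕ → ℝ) (φ : ℕ → ℍ → ℂ) (hs : Tendsto s atTop atTop)
    (hφ : ∀ k, RS.Eig Γ (s k) (φ k)) (h1 : ∀ k, ∫ z in F, ‖φ k z‖ ^ 2 = 1)
    (ν : Measure (EN.MG Γ)) (hν : IsFiniteMeasure ν)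
    (hlim : ∀ V : EN.MG Γ → ℝ, Continuous V →
      Tendsto (fun k => ∫ z in F, V (EN.mkM Γ z) * ‖φ k z‖ ^ 2) atTop (𝓝 (∫ x, V x ∂ν))) :
    ∃ μ : Measure (EN.XG Γ), IsProbabilityMeasure μ ∧ (∀ t, μ.map (EN.fl Γ t) = μ) ∧
      μ.map (EN.pr Γ) = ν ∧ (∀ a : ℝ, MeasurableSet (ER.Low Γ μ a)) ∧
      (∀ a h : ℝ, 0 ≤ a → a < 1 / 2 → 0 ≤ h → h < 1 → 3 * a + h < 2 →
        μ (ER.Low Γ μ h) + μ (ER.Low Γ μ a) ≤ 1) ∧
      (∀ A : Set (EN.MG Γ), MeasurableSet A →
        μ (ER.Low Γ μ (1 / 3)) * (volume (F ∩ {z : ℍ | EN.mkM Γ z ∈ A}) / volume F) ≤ ν A) := by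
  obtain ⟨c, hc, H⟩ := LP.lq_final T1A.A_FN2 HH.A_HAL LQA.A_LPQ LQA.A_UPQ LQA.A_COL LQA.A_CGM
  obtain ⟨⟨μ, a1, a2, a3, a4, -, -, -, -, a5, a6⟩, -⟩ := H Γ F s φ ν hΓ hF hs hφ h1 hν hlim
  exact ⟨μ, a1, a2, a3, a4, a5, a6⟩

end Pool.Agent.Results.MP_07c750_an.LiouvillePart
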